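import Pool.Agent.X225.Fct.Sparse

/-!
# Discrepancy of sparse `0/1` matrices

Every `t`-sparse `0/1` matrix (at most `t` ones in every row and every column) has discrepancy at
most `C √t (1 + log* (min (m, n)))`, also without the condition on the intersections of rows.
-/

set_option autoImplicit false

namespace Pool.Agent.Results.MP_27e7d5_co.LogStarFactor

open Finset

/-- The `k`-th iterate of `x ↦ log (1 + x)`. -/
noncomputable def ilog (k : ℕ) (x : ℝ) : ℝ := (fun t : ℝ => Real.log (1 + t))^[k] x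

/-- The iterated logarithm `log*`: the least `k` with `ilog k N ≤ 1`. -/
noncomputable def logStar (N : ℕ) : ℕ := sInf {k : ℕ | ilog k N ≤ 1}

/-- `A` is a `0/1` matrix with at most `t` ones in every row and every column. -/
def IsSparse {m n : ℕ} (t : ℕ) (A : Matrix (Fin m) (Fin n) ℤ) : Prop :=
  (∀ i j, A i j = 0 ∨ A i j = 1) ∧ (∀ i, (univ.filter fun j => A i j = 1).card ≤ t) ∧
    ∀ j, (univ.filter fun i => A i j = 1).card ≤ t

lemma abs_sum {ι : Type} [Fintype ι] (f : ι → ℤ) (hf : ∀ j, f j = 0 ∨ f j = 1) :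
    ∑ j, |(f j : ℝ)| = ((univ.filter fun j => f j = 1).card : ℝ) := by
  rw [card_filter]
  push_cast
  refine sum_congr rfl fun j _ => ?_
  rcases hf j with h | h
  · rw [h]; simp
  · rw [h]; simp

/-- **Main result.** -/
theorem result (t m n : ℕ) (ht : 1 ≤ t) (A : Matrix (Fin m) (Fin n) ℤ) (hA : IsSparse t A) :
    (∀ r : ℕ, ∃ x : Fin n → ℤ, (∀ j, x j = 1 ∨ x j = -1) ∧
      ∀ i, ((|∑ j, A i j * x j| : ℤ) : ℝ) ≤ 100000000000 * Real.sqrt t *
        (1 + r + min ((ilog (r + 1) (min m n : ℕ)) ^ (1 / 4 : ℝ))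
          (Real.sqrt (ilog (r + 1) (min m n : ℕ)) / Real.sqrt t * (1 + Real.log t) ^ 2))) ∧
    (∃ x : Fin n → ℤ, (∀ j, x j = 1 ∨ x j = -1) ∧
      ∀ i, ((|∑ j, A i j * x j| : ℤ) : ℝ) ≤
        200000000000 * Real.sqrt t * (1 + logStar (min m n))) := by
  have hR : (1 : ℝ) ≤ t := by exact_mod_cast ht
  obtain ⟨h01, hrow, hcol⟩ := hA
  have key : ∀ r : ℕ, ∃ x : Fin n → ℤ, (∀ j, x j = 1 ∨ x j = -1) ∧
      ∀ i, ((|∑ j, A i j * x j| : ℤ) : ℝ) ≤ 100000000000 * Real.sqrt t *
        (1 + r + min ((ilog (r + 1) (min m n : ℕ)) ^ (1 / 4 : ℝ))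
          (Real.sqrt (ilog (r + 1) (min m n : ℕ)) / Real.sqrt t * (1 + Real.log t) ^ 2)) := by
    intro r
    obtain ⟨y, hy, hb⟩ := X225.Fct.sparse (t : ℝ) hR (fun i j => (A i j : ℝ))
      (by
        intro i j
        rcases h01 i j with h | h
        · rw [h]; simp
        · rw [h]; simp)
      (by
        intro i
        rw [abs_sum (fun j => A i j) (fun j => h01 i j)]
        exact_mod_cast hrow i)
      (by
        intro j
        rw [abs_sum (fun i => A i j) (fun i => h01 i j)]
        exact_mod_cast hcol j)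
      (by
        intro i j hne
        rcases h01 i j with h | h
        · exact absurd (by rw [h]; simp) hne
        · rw [h]
          simp only [Int.cast_one, abs_one]
          rw [div_le_one (by linarith)]
          exact hR) r
    refine ⟨fun j => if y j = 1 then 1 else -1, fun j => ?_, fun i => ?_⟩
    · by_cases h : y j = 1
      · left; simp [h]
      · right; simp [h]
    have e : (((∑ j, A i j * (if y j = 1 then (1 : ℤ) else -1)) : ℤ) : ℝ) =
        ∑ j, (A i j : ℝ) * y j := by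
      push_cast
      refine sum_congr rfl fun j _ => ?_
      rcases hy j with h | h
      · simp [h]
      · have : y j ≠ 1 := by rw [h]; norm_num
        rw [if_neg this, h]
    rw [Int.cast_abs, e]
    exact hb i
  refine ⟨key, ?_⟩
  obtain ⟨x, hx, hb⟩ := key (logStar (min m n))
  refine ⟨x, hx, fun i => (hb i).trans ?_⟩
  have hmem : ilog (logStar (min m n)) (min m n : ℕ) ≤ 1 :=
    Nat.sInf_mem (X225.Fct.exists_small (min m n))
  have hnn : 0 ≤ ilog (logStar (min m n)) (min m n : ℕ) :=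
    (X225.Fct.slog_iter_le _ (Nat.cast_nonneg _) _).1
  have hs : ilog (logStar (min m n) + 1) (min m n : ℕ) ≤ 1 := by
    unfold ilog at hmem hnn ⊢
    rw [Function.iterate_succ_apply']
    have := Real.log_le_sub_one_of_pos (show 0 < 1 +
      (fun t : ℝ => Real.log (1 + t))^[logStar (min m n)] ((min m n : ℕ) : ℝ) by linarith)
    linarith
  have hs0 : 0 ≤ ilog (logStar (min m n) + 1) (min m n : ℕ) :=
    (X225.Fct.slog_iter_le _ (Nat.cast_nonneg _) _).1
  have h4 : (ilog (logStar (min m n) + 1) (min m n : ℕ)) ^ (1 / 4 : ℝ) ≤ 1 :=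
    Real.rpow_le_one hs0 hs (by norm_num)
  have hR0 : 0 ≤ Real.sqrt t := Real.sqrt_nonneg _
  have hl0 : (0 : ℝ) ≤ logStar (min m n) := Nat.cast_nonneg _
  have h5 : (1 + (logStar (min m n) : ℝ) +
      min ((ilog (logStar (min m n) + 1) (min m n : ℕ)) ^ (1 / 4 : ℝ))
        (Real.sqrt (ilog (logStar (min m n) + 1) (min m n : ℕ)) / Real.sqrt t *
          (1 + Real.log t) ^ 2)) ≤
      2 * (1 + logStar (min m n)) := by
    have := (min_le_left ((ilog (logStar (min m n) + 1) (min m n : ℕ)) ^ (1 / 4 : ℝ))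
      (Real.sqrt (ilog (logStar (min m n) + 1) (min m n : ℕ)) / Real.sqrt t *
          (1 + Real.log t) ^ 2)).trans h4
    linarith
  have h6 := mul_le_mul_of_nonneg_left h5
    (show 0 ≤ 100000000000 * Real.sqrt (t : ℝ) by positivity)
  linarith

end Pool.Agent.Results.MP_27e7d5_co.LogStarFactor
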